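import Pool.Agent.Helper90.MT.Gaps

set_option autoImplicit false

namespace Pool.Agent.Helper90.Kept.GapSumSystems

open Pool.Agent.Helper90.MT

/-- For every sequence `x` of positive integers (and every function `f`) there are nonempty finite
sets of indices `D 0, D 1, ...`, each lying wholly before the next, such that, with
`y a = ∑ b ∈ D a, x b`, the following holds for every `k` and all nonempty finite sets
`E 0, ..., E (k - 1)`, each lying wholly before the next: the sums `∑ a ∈ E i, y a` (`i < k`) are,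
in this order, `k` consecutive gaps between consecutive primes, and moreover the block formed by
these primes, of length `S = ∑ i, ∑ a ∈ E i, y a`, is preceded and followed by gaps longer than
`f S`. This happens at least `X ^ (1 - ε)` times below `X`, for arbitrarily large `X`. -/
theorem result (f x : ℕ → ℕ) (hx : ∀ i, 0 < x i) :
    ∃ D : ℕ → Finset ℕ, (∀ i, (D i).Nonempty) ∧ (∀ i j, i < j → ∀ a ∈ D i, ∀ b ∈ D j, a < b) ∧
      ∀ (k : ℕ) (E : ℕ → Finset ℕ), (∀ i < k, (E i).Nonempty) →
        (∀ i j, i < j → j < k → ∀ a ∈ E i, ∀ b ∈ E j, a < b) →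
        ∀ ε : ℝ, 0 < ε → ∀ X₀ : ℕ, ∃ X ≥ X₀, (X : ℝ) ^ (1 - ε) ≤ Set.ncard {m : ℕ | m < X ∧
          (∀ i < k, Nat.nth Nat.Prime (m + i + 1) =
            Nat.nth Nat.Prime (m + i) + ∑ a ∈ E i, ∑ b ∈ D a, x b) ∧
          (∀ l : ℕ, l + 1 = m → Nat.nth Nat.Prime l +
            f (∑ i ∈ Finset.range k, ∑ a ∈ E i, ∑ b ∈ D a, x b) < Nat.nth Nat.Prime (l + 1)) ∧
          Nat.nth Nat.Prime (m + k) + f (∑ i ∈ Finset.range k, ∑ a ∈ E i, ∑ b ∈ D a, x b) <
            Nat.nth Nat.Prime (m + k + 1)} := by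
  classical
  obtain ⟨D, hD, h⟩ := mil2_all f x hx
  refine ⟨D, hD.ne, hD.lt, fun k E hE hlt ε hε X₀ => ?_⟩
  set g : ℕ → ℕ := fun i => ∑ a ∈ E i, ∑ b ∈ D a, x b with hg
  have hpos : pos (fun i => ∑ a ∈ D i, x a) ((List.range k).map E) =
      (Finset.range (k + 1)).image (fun i => ∑ j ∈ Finset.range i, g j) := by
    unfold pos
    rw [List.length_map, List.length_range]
    refine Finset.image_congr fun i hi => ?_
    have hi' : i ≤ k := by
      have := Finset.mem_range.1 (Finset.mem_coe.1 hi); omega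
    simp only
    rw [← List.map_take, List.take_range, min_eq_left hi', List.map_map]
    rfl
  have hP := h ((List.range k).map E) (by
    rw [List.pairwise_map]
    exact List.pairwise_lt_range.imp_of_mem fun {i j} hi hj hij =>
      hlt i j hij (List.mem_range.1 hj)) (by
    intro F hF
    obtain ⟨i, hi, rfl⟩ := List.mem_map.1 hF
    exact hE i (List.mem_range.1 hi))
  rw [hpos] at hP
  obtain ⟨X, hX, hX'⟩ := hP ε hε X₀
  refine ⟨X, hX, hX'.trans ?_⟩
  have hgpos : ∀ i < k, 0 < g i := by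
    intro i hi
    exact Finset.sum_pos (fun a _ => Finset.sum_pos (fun b _ => hx b) (hD.ne a)) (hE i hi)
  rw [← Set.ncard_coe_finset]
  have hinj : Set.InjOn (Nat.count Nat.Prime) ↑((Finset.range X).filter (fun n =>
      RlF f ((Finset.range (k + 1)).image (fun i => ∑ j ∈ Finset.range i, g j)) n)) := by
    intro a ha b hb hab
    rw [Finset.coe_filter] at ha hb
    rw [← Nat.nth_count (gaps_of_RlF f k g hgpos a ha.2).1, hab,
      Nat.nth_count (gaps_of_RlF f k g hgpos b hb.2).1]
  rw [← hinj.ncard_image]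
  refine Nat.cast_le.2 ?_
  refine Set.ncard_le_ncard ?_ ((Set.finite_lt_nat X).subset ?_)
  swap
  · rintro m ⟨hm, _⟩
    exact hm
  rintro m ⟨n, hn, rfl⟩
  rw [Finset.coe_filter] at hn
  obtain ⟨_, h1, h2, h3⟩ := gaps_of_RlF f k g hgpos n hn.2
  exact ⟨lt_of_le_of_lt (Nat.count_le _) (Finset.mem_range.1 hn.1), h1, h2, h3⟩

end Pool.Agent.Helper90.Kept.GapSumSystems
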